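import Pool.Agent.V1282.TB4

open Set Filter Topology MeasureTheory Pool.Agent.V1282.TB

namespace Pool.Agent.Results.MP_5288f0_an.MergingInFiniteTime

/-- For every `α > 1`, `0 < ρ₁ < ρ₂` and `m₁, m₂ > 0` there is a pair of shock curves of
the two-bump solution, and for every such pair the two shocks are distinct before the
explicit time
`T = (1/α) ((ρ₂ - ρ₁)/(m₁ + m₂ - ((m₁+m₂)^β - m₁^β)^(1/β)))^α`, `β = α/(α-1)`,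
and coincide from `T` on, with common position `ρ₁ + (m₁ + m₂) (α t)^(1/α)` (the vortex).
In particular `S₁(T) = S₂(T)` with `0 < T < ∞`. -/
theorem result (α ρ₁ ρ₂ m₁ m₂ : ℝ) (hα : 1 < α) (hρ₁ : 0 < ρ₁) (hρ₂ : ρ₁ < ρ₂)
    (hm₁ : 0 < m₁) (hm₂ : 0 < m₂) :
    (∃ S₁ S₂ : ℝ → ℝ, TwoBump α ρ₁ ρ₂ m₁ m₂ S₁ S₂) ∧
    ∀ S₁ S₂ : ℝ → ℝ, TwoBump α ρ₁ ρ₂ m₁ m₂ S₁ S₂ →
      (∃ t : ℝ, 0 < t ∧ S₁ t = S₂ t) ∧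
      0 < mergeTime α ρ₁ ρ₂ m₁ m₂ ∧
      (∀ t : ℝ, 0 < t → t < mergeTime α ρ₁ ρ₂ m₁ m₂ → S₁ t < S₂ t) ∧
      (∀ t : ℝ, mergeTime α ρ₁ ρ₂ m₁ m₂ ≤ t →
        S₁ t = S₂ t ∧ S₂ t = ρ₁ + (m₁ + m₂) * (α * t) ^ (1 / α)) := by
  refine ⟨⟨_, _, exists_twoBump hα hρ₁ hρ₂ hm₁ hm₂⟩, fun S₁ S₂ h => ?_⟩
  have hT := mergeTime_pos hα hρ₂ hm₁ hm₂
  obtain ⟨h1, h2⟩ := main_unique hα hρ₁ hρ₂ hm₁ hm₂ h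
  exact ⟨⟨_, hT, (h2 _ le_rfl).1⟩, hT, h1, h2⟩

end Pool.Agent.Results.MP_5288f0_an.MergingInFiniteTime
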